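import Pool.Agent.Helper73.Sym.Ev

/-!
The axiom of choice in the generic models that meet countably many tasks.
-/

namespace Pool.Agent.Helper64.EC

open Pool.Agent.Helper73.Sym

/-- the axiom of choice: every set of nonempty pairwise disjoint sets has a choice set -/
def AC (M : Type) [Membership M M] : Prop :=
  ∀ x : M, (∀ y, y ∈ x → ∃ z, z ∈ y) →
    (∀ y y', y ∈ x → y' ∈ x → ∀ z, z ∈ y → z ∈ y' → y = y') →
    ∃ c : M, ∀ y, y ∈ x → ∃ z, (z ∈ y ∧ z ∈ c) ∧ ∀ z', z' ∈ y → z' ∈ c → z' = z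

section ac

variable {P : Type} [PartialOrder P]

/-- the indices of the elements of the elements of a name -/
def AcS (x : Nm P) : Type := Σ i : x.Ix, (x.ch i).Ix

/-- the elements of the elements of a name -/
def acT (x : Nm P) (s : AcS x) : Nm P := (x.ch s.1).ch s.2

/-- the condition forces that `s` is the least index of an element of `y` -/
def AcL (x y : Nm P) (s : AcS x) (q : P) : Prop :=
  Mm (acT x s) y q ∧ ∀ t : AcS x, WellOrderingRel t s → ∀ q' ≤ q, ¬ Mm (acT x t) y q'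

theorem AcL.mono {x y : Nm P} {s : AcS x} {p q : P} (h : AcL x y s p) (hq : q ≤ p) :
    AcL x y s q :=
  ⟨h.1.mono hq, fun t ht q' hq' => h.2 t ht q' (hq'.trans hq)⟩

theorem AcL.congr {x y y' : Nm P} {s : AcS x} {p : P} (he : Eqv y y' p) (h : AcL x y s p) :
    AcL x y' s p :=
  ⟨Mm.congr_right he h.1, fun t ht q' hq' hm =>
    h.2 t ht q' hq' (Mm.congr_right (he.mono hq').symm hm)⟩

theorem AcL.uniq {x y : Nm P} {s t : AcS x} {p : P} (hs : AcL x y s p) (ht : AcL x y t p) :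
    s = t := by
  rcases trichotomous_of (WellOrderingRel (α := AcS x)) s t with h | h | h
  · exact absurd hs.1 (ht.2 s h p le_rfl)
  · exact h
  · exact absurd ht.1 (hs.2 t h p le_rfl)

/-- the index set of the choice name -/
def AcI (x : Nm P) : Type :=
  {k : AcS x × x.Ix × P // k.2.2 ≤ x.wt k.2.1 ∧ AcL x (x.ch k.2.1) k.1 k.2.2}

/-- the choice name -/
def acN (x : Nm P) : Nm P := .mk (AcI x) (fun k => acT x k.1.1) (fun k => k.1.2.2)

/-- a default name -/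
def acD : Nm P := .mk Empty (fun e => e.elim) (fun e => e.elim)

/-- the tasks -/
def AcR (e : ℕ) (l : List (Nm P)) (q : P) (C : Set (Nm P)) : Prop :=
  match e with
  | 0 => C = {acN (l.getD 0 acD)}
  | 1 => (∃ s : AcS (l.getD 0 acD), C = {acT (l.getD 0 acD) s} ∧
      AcL (l.getD 0 acD) (l.getD 1 acD) s q) ∨
      ∀ s : AcS (l.getD 0 acD), ∀ q' ≤ q, ¬ Mm (acT (l.getD 0 acD) s) (l.getD 1 acD) q'
  | _ => (∃ k : AcI (l.getD 0 acD), C = {(l.getD 0 acD).ch k.1.2.1} ∧ q ≤ k.1.2.2 ∧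
      Eqv (l.getD 1 acD) (acT (l.getD 0 acD) k.1.1) q) ∨
      ∀ k : AcI (l.getD 0 acD), ∀ q' ≤ q, q' ≤ k.1.2.2 →
        ¬ Eqv (l.getD 1 acD) (acT (l.getD 0 acD) k.1.1) q'

theorem acR_dense (e : ℕ) (l : List (Nm P)) (p : P) :
    ∃ q ≤ p, ∃ C : Set (Nm P), C.Countable ∧ AcR e l q C := by
  rcases e with _ | _ | e
  · exact ⟨p, le_rfl, _, Set.countable_singleton _, rfl⟩
  · generalize hx : l.getD 0 acD = x
    generalize hy : l.getD 1 acD = y
    show ∃ q ≤ p, ∃ C : Set (Nm P), C.Countable ∧ ((∃ s : AcS (l.getD 0 acD),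
      C = {acT (l.getD 0 acD) s} ∧ AcL (l.getD 0 acD) (l.getD 1 acD) s q) ∨
      ∀ s : AcS (l.getD 0 acD), ∀ q' ≤ q, ¬ Mm (acT (l.getD 0 acD) s) (l.getD 1 acD) q')
    rw [hx, hy]
    by_cases h : ∃ s : AcS x, ∃ q ≤ p, Mm (acT x s) y q
    · have hwf : WellFounded (WellOrderingRel (α := AcS x)) := IsWellFounded.wf
      obtain ⟨s, ⟨q, hq, hs⟩, hmin⟩ := hwf.has_min {s : AcS x | ∃ q ≤ p, Mm (acT x s) y q} h
      refine ⟨q, hq, {acT x s}, Set.countable_singleton _, Or.inl ⟨s, rfl, hs, ?_⟩⟩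
      intro t ht q' hq' hm
      exact hmin t ⟨q', hq'.trans hq, hm⟩ ht
    · push Not at h
      exact ⟨p, le_rfl, ∅, Set.countable_empty, Or.inr h⟩
  · generalize hx : l.getD 0 acD = x
    generalize hy : l.getD 1 acD = y
    show ∃ q ≤ p, ∃ C : Set (Nm P), C.Countable ∧ ((∃ k : AcI (l.getD 0 acD),
      C = {(l.getD 0 acD).ch k.1.2.1} ∧ q ≤ k.1.2.2 ∧
      Eqv (l.getD 1 acD) (acT (l.getD 0 acD) k.1.1) q) ∨
      ∀ k : AcI (l.getD 0 acD), ∀ q' ≤ q, q' ≤ k.1.2.2 →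
        ¬ Eqv (l.getD 1 acD) (acT (l.getD 0 acD) k.1.1) q')
    rw [hx, hy]
    by_cases h : ∃ k : AcI x, ∃ q ≤ p, q ≤ k.1.2.2 ∧ Eqv y (acT x k.1.1) q
    · obtain ⟨k, q, hq, h1, h2⟩ := h
      exact ⟨q, hq, _, Set.countable_singleton _, Or.inl ⟨k, rfl, h1, h2⟩⟩
    · push Not at h
      exact ⟨p, le_rfl, ∅, Set.countable_empty, Or.inr h⟩

end ac

theorem exists_ac_tasks (P : Type) [PartialOrder P] [OrderTop P] :
    ∃ R : ℕ → List (Nm P) → P → Set (Nm P) → Prop,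
      (∀ e l p, ∃ q ≤ p, ∃ C : Set (Nm P), C.Countable ∧ R e l q C) ∧
      ∀ (G : Type) [Group G] [MulAction G P] [SymSys P G] (D : Gen P G),
        (∀ e l, (∀ x ∈ l, D.Has x) → ∃ n C, R e l (D.g n) C ∧ ∀ x ∈ C, D.Has x) →
        AC D.M := by
  refine ⟨AcR, acR_dense, ?_⟩
  intro G _ _ _ D hT a hne hdis
  obtain ⟨x, hx, rfl⟩ := Gen.ev_surj a
  -- the choice set
  have hc : D.Has (acN x) := by
    obtain ⟨n, C, hC, hh⟩ := hT 0 [x] (by simpa using hx)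
    have hC' : C = {acN x} := hC
    exact hh _ (by rw [hC']; rfl)
  refine ⟨D.ev (acN x), ?_⟩
  intro b hb
  obtain ⟨y, hy, rfl⟩ := Gen.ev_surj b
  obtain ⟨m0, hm0, hev⟩ := hx.ev
  obtain ⟨k0, hk0, hev0⟩ := hy.ev
  -- the element is a child
  obtain ⟨n1, i, hi, he⟩ : ∃ n, ∃ i : x.Ix, D.g n ≤ x.wt i ∧ Eqv y (x.ch i) (D.g n) := by
    have h1 : D.el k0 ∈ D.el m0 := by rw [← hev0, ← hev]; exact hb
    have h2 := D.exists_child hm0 h1
    rw [hk0] at h2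
    exact h2
  -- the least index
  obtain ⟨n2, s, hsH, hs⟩ : ∃ n, ∃ s : AcS x, D.Has (acT x s) ∧ AcL x y s (D.g n) := by
    obtain ⟨n, C, hC, hh⟩ := hT 1 [x, y] (by
      intro w hw
      rcases List.mem_cons.1 hw with rfl | hw
      · exact hx
      · rw [List.mem_singleton.1 hw]; exact hy)
    have hC' : (∃ s : AcS x, C = {acT x s} ∧ AcL x y s (D.g n)) ∨
      ∀ s : AcS x, ∀ q' ≤ D.g n, ¬ Mm (acT x s) y q' := hC
    rcases hC' with ⟨s, h1, h2⟩ | h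
    · exact ⟨n, s, hh _ (by rw [h1]; rfl), h2⟩
    · exfalso
      obtain ⟨z, hz⟩ := hne _ hb
      obtain ⟨w, hw, rfl⟩ := Gen.ev_surj z
      obtain ⟨m, hm⟩ := (Gen.ev_mem hw hy).1 hz
      have hq1 : D.g (max m (max n n1)) ≤ D.g m := D.anti (le_max_left _ _)
      have hq2 : D.g (max m (max n n1)) ≤ D.g n :=
        D.anti ((le_max_left n n1).trans (le_max_right _ _))
      have hq3 : D.g (max m (max n n1)) ≤ D.g n1 :=
        D.anti ((le_max_right n n1).trans (le_max_right _ _))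
      have h3 : Mm w (x.ch i) (D.g (max m (max n n1))) :=
        Mm.congr_right (he.mono hq3) (hm.mono hq1)
      obtain ⟨r, hr, j, -, hej⟩ := h3 _ le_rfl
      exact h ⟨i, j⟩ r (hr.trans hq2)
        (Mm.congr_left hej (hm.mono (hr.trans hq1)))
  refine ⟨D.ev (acT x s), ⟨(Gen.ev_mem hsH hy).2 ⟨n2, hs.1⟩, ?_⟩, ?_⟩
  · rw [Gen.ev_mem hsH hc]
    have hq1 : D.g (max n1 n2) ≤ D.g n1 := D.anti (le_max_left _ _)
    have hq2 : D.g (max n1 n2) ≤ D.g n2 := D.anti (le_max_right _ _)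
    have h1 : D.g (max n1 n2) ≤ x.wt i := hq1.trans hi
    have h2 : AcL x (x.ch i) s (D.g (max n1 n2)) := (hs.mono hq2).congr (he.mono hq1)
    exact ⟨max n1 n2, Mm.child (acN x) (⟨(s, i, D.g (max n1 n2)), h1, h2⟩ : AcI x) le_rfl⟩
  · intro z' hz1 hz2
    obtain ⟨w, hw, rfl⟩ := Gen.ev_surj z'
    obtain ⟨m, hm⟩ := (Gen.ev_mem hw hc).1 hz2
    obtain ⟨n3, k, hkH, hk1, hk2⟩ : ∃ n, ∃ k : AcI x, D.Has (x.ch k.1.2.1) ∧
        D.g n ≤ k.1.2.2 ∧ Eqv w (acT x k.1.1) (D.g n) := by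
      obtain ⟨n, C, hC, hh⟩ := hT 2 [x, w] (by
        intro v hv
        rcases List.mem_cons.1 hv with rfl | hv
        · exact hx
        · rw [List.mem_singleton.1 hv]; exact hw)
      have hC' : (∃ k : AcI x, C = {x.ch k.1.2.1} ∧ D.g n ≤ k.1.2.2 ∧
          Eqv w (acT x k.1.1) (D.g n)) ∨
          ∀ k : AcI x, ∀ q' ≤ D.g n, q' ≤ k.1.2.2 → ¬ Eqv w (acT x k.1.1) q' := hC
      rcases hC' with ⟨k, h1, h2, h3⟩ | h
      · exact ⟨n, k, hh _ (by rw [h1]; rfl), h2, h3⟩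
      · exfalso
        obtain ⟨r, hr, k, hk, hek⟩ := hm (D.g (max m n)) (D.anti (le_max_left _ _))
        exact h k r (hr.trans (D.anti (le_max_right _ _))) hk hek
    obtain ⟨⟨t, i', q'⟩, hk3, hk4⟩ := k
    dsimp only at hkH hk1 hk2 hk3 hk4
    have h1 : D.ev (x.ch i') ∈ D.ev x :=
      (Gen.ev_mem hkH hx).2 ⟨n3, Mm.child x i' (hk1.trans hk3)⟩
    have h2 : D.ev w ∈ D.ev (x.ch i') :=
      (Gen.ev_mem hw hkH).2 ⟨n3, Mm.congr_left hk2.symm (hk4.1.mono hk1)⟩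
    have h3 := hdis _ _ hb h1 _ hz1 h2
    obtain ⟨n4, hn4⟩ := (Gen.ev_eq hy hkH).1 h3
    have hN2 : D.g (max n2 (max n3 n4)) ≤ D.g n2 := D.anti (le_max_left _ _)
    have hN3 : D.g (max n2 (max n3 n4)) ≤ D.g n3 :=
      D.anti ((le_max_left n3 n4).trans (le_max_right _ _))
    have hN4 : D.g (max n2 (max n3 n4)) ≤ D.g n4 :=
      D.anti ((le_max_right n3 n4).trans (le_max_right _ _))
    have h4 : AcL x y t (D.g (max n2 (max n3 n4))) :=
      (hk4.mono (hN3.trans hk1)).congr (hn4.mono hN4).symm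
    have h5 : s = t := (hs.mono hN2).uniq h4
    subst h5
    exact (Gen.ev_eq hw hsH).2 ⟨n3, hk2⟩

end Pool.Agent.Helper64.EC
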